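import Pool.Agent.Helper31.ETSP.Bits

/-!
# ST-3: addition, comparison and sums of binary numbers
-/

set_option autoImplicit false
set_option linter.unusedVariables false

namespace Pool.Agent.Helper73.ETSP

open N68a2faeb Pool.Agent.Helper36.PT

variable {α β γ : Type} [Enc α] [Enc β] [Enc γ]

/-- the carry -/
def carry (u v : ℕ → Bool) (n : ℕ) : Bool :=
  recN false (fun i c => (u i && v i) || (c && (u i || v i))) n

/-- exclusive or -/
def bxor (x y : Bool) : Bool := (x && !y) || (!x && y)

/-- the bits of the sum -/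
def addBit (u v : ℕ → Bool) (n : ℕ) : Bool := bxor (bxor (u n) (v n)) (carry u v n)

theorem carry_zero (u v : ℕ → Bool) : carry u v 0 = false := rfl

theorem carry_succ (u v : ℕ → Bool) (n : ℕ) :
    carry u v (n + 1) = ((u n && v n) || (carry u v n && (u n || v n))) := rfl

theorem sum_addBit (u v : ℕ → Bool) (n : ℕ) :
    ∑ i ∈ Finset.range n, (addBit u v i).toNat * 2 ^ i + (carry u v n).toNat * 2 ^ n =
      ∑ i ∈ Finset.range n, (u i).toNat * 2 ^ i + ∑ i ∈ Finset.range n, (v i).toNat * 2 ^ i := by
  induction n with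
  | zero => simp [carry_zero]
  | succ n ih =>
    rw [Finset.sum_range_succ, Finset.sum_range_succ, Finset.sum_range_succ, carry_succ, pow_succ]
    have h : (addBit u v n).toNat + 2 * ((u n && v n) || (carry u v n && (u n || v n))).toNat =
        (u n).toNat + (v n).toNat + (carry u v n).toNat := by
      unfold addBit bxor
      cases u n <;> cases v n <;> cases carry u v n <;> rfl
    have h2 : (addBit u v n).toNat * 2 ^ n +
        ((u n && v n) || (carry u v n && (u n || v n))).toNat * (2 ^ n * 2) =
        (u n).toNat * 2 ^ n + (v n).toNat * 2 ^ n + (carry u v n).toNat * 2 ^ n := by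
      rw [← add_mul, ← add_mul, ← h]
      ring
    omega

theorem sum_addBit_eq (x y n : ℕ) (h : x + y < 2 ^ n) :
    ∑ i ∈ Finset.range n, (addBit x.testBit y.testBit i).toNat * 2 ^ i = x + y := by
  have h1 := sum_addBit x.testBit y.testBit n
  rw [sum_bits_self x n (by omega), sum_bits_self y n (by omega)] at h1
  cases h2 : carry x.testBit y.testBit n
  · rw [h2] at h1
    simpa using h1
  · rw [h2] at h1
    exfalso
    simp only [Bool.toNat_true, one_mul] at h1
    omega

theorem size_add_le (x y : ℕ) : (x + y).size ≤ x.size + y.size := by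
  rw [Nat.size_le, pow_add]
  have hx := Nat.lt_size_self x
  have hy := Nat.lt_size_self y
  obtain ⟨p, hp⟩ := Nat.exists_eq_add_of_le (Nat.one_le_two_pow (n := x.size))
  obtain ⟨q, hq⟩ := Nat.exists_eq_add_of_le (Nat.one_le_two_pow (n := y.size))
  rw [hp] at hx ⊢
  rw [hq] at hy ⊢
  nlinarith [Nat.zero_le (p * q)]

@[fun_prop] theorem PolyTime.bnAdd {f g : α → BN} (hf : PolyTime f) (hg : PolyTime g) :
    PolyTime (fun a => BN.mk ((f a).val + (g a).val)) := by
  have hc : PolyTime (fun p : α × ℕ => carry (f p.1).val.testBit (g p.1).val.testBit p.2) := by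
    unfold carry
    refine PolyTime.recN (h := fun (p : α × ℕ) i c => ((f p.1).val.testBit i && (g p.1).val.testBit i) ||
      (c && ((f p.1).val.testBit i || (g p.1).val.testBit i))) PolyTime.snd
      (PolyTime.const false) ?_ ⟨fun _ => 1, Bdd.const 1, fun a i _ => le_of_eq (esz_bool _)⟩
    have h1 : PolyTime (fun p : ((α × ℕ) × ℕ) × Bool => (f p.1.1.1).val.testBit p.1.2) :=
      PolyTime.bnTestBit (by fun_prop) (by fun_prop)
    have h2 : PolyTime (fun p : ((α × ℕ) × ℕ) × Bool => (g p.1.1.1).val.testBit p.1.2) :=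
      PolyTime.bnTestBit (by fun_prop) (by fun_prop)
    exact ((h1.and' h2).or' (PolyTime.snd.and' (h1.or' h2)))
  have hf1 : PolyTime (fun p : α × ℕ => (f p.1).val.testBit p.2) :=
    PolyTime.bnTestBit (by fun_prop) (by fun_prop)
  have hg1 : PolyTime (fun p : α × ℕ => (g p.1).val.testBit p.2) :=
    PolyTime.bnTestBit (by fun_prop) (by fun_prop)
  have hx : PolyTime (fun p : α × ℕ =>
      bxor ((f p.1).val.testBit p.2) ((g p.1).val.testBit p.2)) :=
    (hf1.and' hg1.not').or' (hf1.not'.and' hg1)
  have hb : PolyTime (fun p : α × ℕ =>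
      addBit (f p.1).val.testBit (g p.1).val.testBit p.2) :=
    (hx.and' hc.not').or' (hx.not'.and' hc)
  have hn : PolyTime (fun a => (f a).val.size + (g a).val.size) :=
    (PolyTime.bnSize hf).add (PolyTime.bnSize hg)
  refine (PolyTime.bnOfBits (c := fun a i => addBit (f a).val.testBit (g a).val.testBit i)
    hn hb).congr fun a => ?_
  rw [sum_addBit_eq]
  exact Nat.size_le.1 (size_add_le _ _)

theorem exists_top_diff {x y : ℕ} (h : x ≠ y) :
    ∃ i, x.testBit i ≠ y.testBit i ∧ ∀ j, i < j → x.testBit j = y.testBit j := by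
  classical
  obtain ⟨i0, hi0⟩ : ∃ i, x.testBit i ≠ y.testBit i := by
    by_contra h1
    push Not at h1
    exact h (Nat.eq_of_testBit_eq h1)
  have hN : ∀ j, x.testBit j ≠ y.testBit j → j ≤ x.size + y.size := by
    intro j hj
    by_contra h1
    apply hj
    rw [Nat.testBit_lt_two_pow (Nat.size_le.1 (show x.size ≤ j by omega)),
        Nat.testBit_lt_two_pow (Nat.size_le.1 (show y.size ≤ j by omega))]
  refine ⟨Nat.findGreatest (fun i => x.testBit i ≠ y.testBit i) (x.size + y.size),
    Nat.findGreatest_spec (P := fun i => x.testBit i ≠ y.testBit i) (hN i0 hi0) hi0, fun j hj => ?_⟩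
  by_contra h2
  exact Nat.findGreatest_is_greatest hj (hN j h2) h2

@[fun_prop] theorem PolyTime.pBnLt {f g : α → BN} (hf : PolyTime f) (hg : PolyTime g) :
    PolyTime (fun a => (f a).val < (g a).val) := by
  have h : PolyTime (fun a => ∃ i < (g a).val.size, ¬ ((f a).val.testBit i = true) ∧
      ((g a).val.testBit i = true) ∧ ∀ j < (f a).val.size + (g a).val.size, i < j →
      ((f a).val.testBit j = true ↔ (g a).val.testBit j = true)) := by
    have h1 : PolyTime (fun p : α × ℕ => (f p.1).val.testBit p.2) :=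
      PolyTime.bnTestBit (by fun_prop) (by fun_prop)
    have h2 : PolyTime (fun p : α × ℕ => (g p.1).val.testBit p.2) :=
      PolyTime.bnTestBit (by fun_prop) (by fun_prop)
    have h3 : PolyTime (fun p : (α × ℕ) × ℕ => (f p.1.1).val.testBit p.2) :=
      PolyTime.bnTestBit (by fun_prop) (by fun_prop)
    have h4 : PolyTime (fun p : (α × ℕ) × ℕ => (g p.1.1).val.testBit p.2) :=
      PolyTime.bnTestBit (by fun_prop) (by fun_prop)
    have h5 : PolyTime (fun a => (g a).val.size) := PolyTime.bnSize hg
    have h6 : PolyTime (fun p : α × ℕ => (f p.1).val.size + (g p.1).val.size) :=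
      (PolyTime.bnSize (by fun_prop)).add (PolyTime.bnSize (by fun_prop))
    refine PolyTime.pExLt h5 ?_
    refine (PolyTime.pBool h1).pNot.pAnd ((PolyTime.pBool h2).pAnd ?_)
    refine PolyTime.pAllLt h6 ?_
    refine PolyTime.pImp ?_ ((PolyTime.pBool h3).pIff (PolyTime.pBool h4))
    fun_prop
  refine h.congr fun a => propext ⟨?_, ?_⟩
  · rintro ⟨i, hi, h1, h2, h3⟩
    refine Nat.lt_of_testBit i (by simpa using h1) h2 fun j hj => ?_
    by_cases hj2 : j < (f a).val.size + (g a).val.size
    · exact Bool.eq_iff_iff.2 (h3 j hj2 hj)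
    · rw [Nat.testBit_lt_two_pow (Nat.size_le.1 (show (f a).val.size ≤ j by omega)),
        Nat.testBit_lt_two_pow (Nat.size_le.1 (show (g a).val.size ≤ j by omega))]
  · intro hlt
    obtain ⟨i, h1, h2⟩ := exists_top_diff hlt.ne
    have h3 : (f a).val.testBit i = false ∧ (g a).val.testBit i = true := by
      cases h4 : (f a).val.testBit i
      · cases h5 : (g a).val.testBit i
        · exact absurd (h4.trans h5.symm) h1
        · exact ⟨rfl, rfl⟩
      · cases h5 : (g a).val.testBit i
        · exact absurd (Nat.lt_of_testBit i h5 h4 fun j hj => (h2 j hj).symm) (not_lt.2 hlt.le)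
        · exact absurd (h4.trans h5.symm) h1
    refine ⟨i, ?_, by simp [h3.1], h3.2, fun j _ hj => by rw [h2 j hj]⟩
    by_contra hi
    have h6 := Nat.testBit_lt_two_pow (Nat.size_le.1 (show (g a).val.size ≤ i by omega))
    rw [h3.2] at h6
    exact Bool.noConfusion h6

@[fun_prop] theorem PolyTime.pBnLe {f g : α → BN} (hf : PolyTime f) (hg : PolyTime g) :
    PolyTime (fun a => (f a).val ≤ (g a).val) :=
  (PolyTime.pBnLt hg hf).pNot.congr fun a => propext not_lt

@[fun_prop] theorem PolyTime.pBnEq {f g : α → BN} (hf : PolyTime f) (hg : PolyTime g) :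
    PolyTime (fun a => (f a).val = (g a).val) :=
  (PolyTime.pEq hf hg).congr fun a => propext ⟨fun h => congrArg BN.val h, fun h => by
    cases hx : f a
    cases hy : g a
    rw [hx, hy] at h
    exact congrArg BN.mk h⟩

theorem foldl_bn (l : List BN) (s : BN) :
    l.foldl (fun s x => BN.mk (s.val + x.val)) s = BN.mk (s.val + (l.map BN.val).sum) := by
  induction l generalizing s with
  | nil => simp
  | cons x l ih =>
    rw [List.foldl_cons, ih]
    simp [add_assoc]

theorem size_sum_le (l : List BN) : ((l.map BN.val).sum).size ≤ esz l := by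
  induction l with
  | nil => simp
  | cons x l ih =>
    rw [List.map_cons, List.sum_cons, esz_cons, esz_bn']
    have := size_add_le x.val (l.map BN.val).sum
    omega

theorem PolyTime.bnSum_aux {l : α → List BN} (hl : PolyTime l) :
    PolyTime (fun a => (l a).foldl ((fun (_ : α) (s x : BN) => BN.mk (s.val + x.val)) a)
      ((fun _ : α => BN.mk 0) a)) := by
  have h1 : PolyTime (fun p : (α × BN) × BN => BN.mk (p.1.2.val + p.2.val)) :=
    PolyTime.bnAdd (f := fun p : (α × BN) × BN => p.1.2) (g := fun p => p.2)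
      (PolyTime.snd.comp PolyTime.fst) PolyTime.snd
  have h2 : PolyTime (fun _ : α => BN.mk 0) := PolyTime.const (BN.mk 0)
  refine PolyTime.foldl hl h2 h1 ?_
  refine ⟨fun a => esz (l a), PolyTime.bdd hl, fun a i => ?_⟩
  rw [foldl_bn, esz_bn, Nat.zero_add]
  exact (size_sum_le _).trans (F1.esz_take_le _ _)

@[fun_prop] theorem PolyTime.bnSum {l : α → List BN} (hl : PolyTime l) :
    PolyTime (fun a => BN.mk ((l a).map BN.val).sum) := by
  refine (PolyTime.bnSum_aux hl).congr fun a => ?_
  show (l a).foldl (fun s x => BN.mk (s.val + x.val)) (BN.mk 0) = _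
  rw [foldl_bn]
  simp

end Pool.Agent.Helper73.ETSP
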