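import Pool.Agent.Helper73.ETSP.Defs

/-!
# ST-2: binary natural numbers, bits
-/

set_option autoImplicit false
set_option linter.unusedVariables false

namespace Pool.Agent.Helper73.ETSP

open N68a2faeb Pool.Agent.Helper36.PT

variable {α β γ : Type} [Enc α] [Enc β] [Enc γ]

/-- `PolyTime` depends only on the encoding of the value. -/
theorem PolyTime.of_encEq {f : α → β} {g : α → γ} (hg : PolyTime g)
    (h : ∀ a, enc (f a) = enc (g a)) : PolyTime f := by
  obtain ⟨p, d, hp⟩ := hg
  exact ⟨p, d, fun a X => by rw [h a]; exact hp a X⟩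

theorem size_half {m : ℕ} (h : m ≠ 0) : m.size = (m / 2).size + 1 := by
  apply le_antisymm
  · rw [Nat.size_le]
    have h1 : m / 2 < 2 ^ (m / 2).size := Nat.lt_size_self (m / 2)
    rw [pow_succ]
    omega
  · have h1 : m < 2 ^ m.size := Nat.lt_size_self m
    have h2 : 1 ≤ m.size := by
      by_contra h3
      have h4 : m.size = 0 := by omega
      rw [h4] at h1
      simp at h1
      exact h h1
    obtain ⟨k, hk⟩ : ∃ k, m.size = k + 1 := ⟨m.size - 1, by omega⟩
    rw [hk] at h1 ⊢
    have h5 : (m / 2).size ≤ k := by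
      rw [Nat.size_le]
      rw [pow_succ] at h1
      omega
    omega

theorem encodeNat_eq (m : ℕ) :
    Computability.encodeNat m = (List.range m.size).map m.testBit := by
  induction m using Nat.strong_induction_on with
  | _ m ih =>
    rw [encodeNat_rec]
    by_cases h : m = 0
    · subst h
      simp
    · rw [if_neg h, ih (m / 2) (by omega), size_half h, List.range_succ_eq_map, List.map_cons,
        List.map_map]
      congr 1
      · rw [Nat.testBit_zero]
      · apply List.map_congr_left
        intro i _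
        show (m / 2).testBit i = m.testBit (i + 1)
        rw [Nat.testBit_succ]

theorem enc_bn (x : BN) : enc x = (List.range x.val.size).map x.val.testBit := encodeNat_eq x.val

theorem esz_bn (m : ℕ) : esz (BN.mk m) = m.size := by
  show (enc (BN.mk m)).length = _
  rw [enc_bn]
  simp

theorem esz_bn' (x : BN) : esz x = x.val.size := esz_bn x.val

theorem esz_bn_mono {m n : ℕ} (h : m ≤ n) : esz (BN.mk m) ≤ esz (BN.mk n) := by
  rw [esz_bn, esz_bn]
  exact Nat.size_le_size h

theorem esz_bn_le {m k : ℕ} : esz (BN.mk m) ≤ k ↔ m < 2 ^ k := by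
  rw [esz_bn]
  exact Nat.size_le

theorem testBit_eq_getD (x : BN) (i : ℕ) : x.val.testBit i = (enc x).getD i false := by
  rw [enc_bn]
  by_cases h : i < x.val.size
  · rw [List.getD_eq_getElem _ _ (by simpa using h)]
    simp
  · rw [List.getD_eq_default _ _ (by simpa using h)]
    exact Nat.testBit_lt_two_pow (Nat.size_le.1 (by omega))

instance : InjEnc BN := ⟨fun a b h => by
  have h1 : a.val = b.val := Nat.eq_of_testBit_eq fun i => by
    rw [testBit_eq_getD, testBit_eq_getD, h]
  cases a
  cases b
  simpa using h1⟩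

/-- the bit `i` (`List.getD` of `encodeNat`) -/
@[fun_prop] theorem PolyTime.bnTestBit {f : α → BN} {i : α → ℕ} (hf : PolyTime f) (hi : PolyTime i) :
    PolyTime (fun a => (f a).val.testBit (i a)) := by
  have h : PolyTime (fun a => (Word.mk (enc (f a))).w.getD (i a) false) :=
    PolyTime.getD (PolyTime.wordToList' (PolyTime.toWord hf)) hi false
  exact h.congr fun a => (testBit_eq_getD (f a) (i a)).symm

theorem sum_bits_lt (c : ℕ → Bool) (n : ℕ) :
    ∑ i ∈ Finset.range n, (c i).toNat * 2 ^ i < 2 ^ n := by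
  induction n with
  | zero => simp
  | succ n ih =>
    rw [Finset.sum_range_succ, pow_succ]
    have h : (c n).toNat ≤ 1 := by cases c n <;> simp
    have h2 : (c n).toNat * 2 ^ n ≤ 2 ^ n := by
      calc (c n).toNat * 2 ^ n ≤ 1 * 2 ^ n := Nat.mul_le_mul_right _ h
        _ = 2 ^ n := one_mul _
    omega

theorem testBit_sum_bits (c : ℕ → Bool) (n j : ℕ) :
    (∑ i ∈ Finset.range n, (c i).toNat * 2 ^ i).testBit j = if j < n then c j else false := by
  induction n with
  | zero => simp
  | succ n ih =>
    rw [Finset.sum_range_succ, add_comm, mul_comm,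
      Nat.testBit_two_pow_mul_add _ (sum_bits_lt c n), ih]
    by_cases h : j < n
    · rw [if_pos h, if_pos h, if_pos (by omega)]
    · rw [if_neg h]
      by_cases h2 : j < n + 1
      · have h3 : j = n := by omega
        subst h3
        rw [if_pos h2, Nat.sub_self]
        cases c j <;> simp
      · rw [if_neg h2]
        have h3 : j - n ≠ 0 := by omega
        cases c n
        · simp
        · exact Nat.testBit_lt_two_pow (Nat.one_lt_two_pow h3)

theorem sum_bits_self (m n : ℕ) (h : m < 2 ^ n) :
    ∑ i ∈ Finset.range n, (m.testBit i).toNat * 2 ^ i = m := by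
  refine Nat.eq_of_testBit_eq fun j => ?_
  rw [testBit_sum_bits]
  by_cases hj : j < n
  · rw [if_pos hj]
  · rw [if_neg hj]
    refine (Nat.testBit_lt_two_pow (lt_of_lt_of_le h ?_)).symm
    exact Nat.pow_le_pow_right (by norm_num) (by omega)

theorem size_sum_bits (c : ℕ → Bool) (n k : ℕ) :
    (∑ i ∈ Finset.range n, (c i).toNat * 2 ^ i).size ≤ k ↔ ∀ i < n, k ≤ i → ¬ c i = true := by
  rw [Nat.size_le]
  constructor
  · intro h i hi hk hc
    have h1 := Nat.testBit_lt_two_pow (lt_of_lt_of_le h (Nat.pow_le_pow_right (by norm_num) hk))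
    rw [testBit_sum_bits, if_pos hi, hc] at h1
    exact Bool.noConfusion h1
  · intro h
    refine Nat.lt_pow_two_of_testBit _ fun i hi => ?_
    rw [testBit_sum_bits]
    by_cases hin : i < n
    · rw [if_pos hin]
      exact Bool.eq_false_iff.2 (h i hin hi)
    · rw [if_neg hin]

theorem mu_eq_of {n k : ℕ} {Q : ℕ → Prop} (hk : k < n) (h1 : Q k) (h2 : ∀ j < k, ¬ Q j) :
    mu n Q = k := by
  classical
  unfold mu
  have h : ∃ i, i < n ∧ Q i := ⟨k, hk, h1⟩
  rw [dif_pos h, Nat.find_eq_iff]
  exact ⟨⟨hk, h1⟩, fun j hj h3 => h2 j hj h3.2⟩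

theorem mu_eq_size (c : ℕ → Bool) (n : ℕ) :
    mu (n + 1) (fun k => ∀ i < n, k ≤ i → ¬ c i = true) =
      (∑ i ∈ Finset.range n, (c i).toNat * 2 ^ i).size := by
  apply mu_eq_of
  · have h1 : (∑ i ∈ Finset.range n, (c i).toNat * 2 ^ i).size ≤ n :=
      (size_sum_bits c n n).2 fun i hi hk => absurd hi (by omega)
    omega
  · exact (size_sum_bits c n _).1 le_rfl
  · intro j hj h
    have := (size_sum_bits c n j).2 h
    omega

/-- the number with given bits -/
@[fun_prop] theorem PolyTime.bnOfBits {n : α → ℕ} {c : α → ℕ → Bool} (hn : PolyTime n)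
    (hc : PolyTime (fun p : α × ℕ => c p.1 p.2)) :
    PolyTime (fun a => BN.mk (∑ i ∈ Finset.range (n a), (c a i).toNat * 2 ^ i)) := by
  have hL : PolyTime (fun a => mu (n a + 1) (fun k => ∀ i < n a, k ≤ i → ¬ c a i = true)) := by
    have hc1 : PolyTime (fun p : (α × ℕ) × ℕ => c p.1.1 p.2) :=
      hc.comp (f := fun p : (α × ℕ) × ℕ => (p.1.1, p.2)) (by fun_prop)
    fun_prop
  have hW : PolyTime (fun a => Word.mk ((List.range
      (mu (n a + 1) (fun k => ∀ i < n a, k ≤ i → ¬ c a i = true))).map (c a))) :=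
    PolyTime.listToWord' (PolyTime.ofFn hL hc)
  refine PolyTime.of_encEq hW fun a => ?_
  rw [enc_bn]
  show _ = (List.range
      (mu (n a + 1) (fun k => ∀ i < n a, k ≤ i → ¬ c a i = true))).map (c a)
  rw [mu_eq_size]
  apply List.map_congr_left
  intro i hi
  rw [List.mem_range] at hi
  replace hi : i < (∑ i ∈ Finset.range (n a), (c a i).toNat * 2 ^ i).size := hi
  have h1 : (∑ i ∈ Finset.range (n a), (c a i).toNat * 2 ^ i).size ≤ n a :=
    (size_sum_bits (c a) (n a) (n a)).2 fun i hi hk => absurd hi (by omega)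
  show Nat.testBit _ _ = _
  rw [testBit_sum_bits, if_pos (by omega)]

/-- the number of bits, as a unary number -/
@[fun_prop] theorem PolyTime.bnSize {f : α → BN} (hf : PolyTime f) :
    PolyTime (fun a => (f a).val.size) :=
  (PolyTime.size' hf).congr fun a => esz_bn' (f a)

/-- conversion from unary to binary -/
@[fun_prop] theorem PolyTime.bnOfNat {f : α → ℕ} (hf : PolyTime f) :
    PolyTime (fun a => BN.mk (f a)) :=
  PolyTime.of_encEq (PolyTime.encodeNat hf) fun _ => rfl

instance : Dec BN := ⟨fun w => BN.mk (∑ i ∈ Finset.range w.w.length,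
    (w.w.getD i false).toNat * 2 ^ i), by fun_prop, fun a => by
  cases a with
  | mk m =>
    apply congrArg BN.mk
    have h1 : (enc (BN.mk m)).length = m.size := esz_bn m
    show ∑ i ∈ Finset.range (enc (BN.mk m)).length,
      ((enc (BN.mk m)).getD i false).toNat * 2 ^ i = m
    rw [h1]
    have h2 : ∀ i, (enc (BN.mk m)).getD i false = m.testBit i := fun i =>
      (testBit_eq_getD (BN.mk m) i).symm
    simp only [h2]
    exact sum_bits_self m m.size (Nat.lt_size_self m)⟩

end Pool.Agent.Helper73.ETSP
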